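import Pool.Agent.P.MP_76760e_an.Defs

/-!
Positivity of matrices: reformulations.
-/

open scoped ComplexOrder MatrixOrder Matrix

namespace Pool.Agent.P.MP_76760e_an

lemma nonneg_iff_aux {B : Type*} [NonUnitalCStarAlgebra B] [PartialOrder B] [StarOrderedRing B]
    (a : B) : 0 ≤ a ↔ ∃ b : B, a = star b * b :=
  CStarAlgebra.nonneg_iff_eq_star_mul_self

lemma nonneg_of_spectrum_aux {B : Type*} [CStarAlgebra B] [PartialOrder B] [StarOrderedRing B]
    (a : B) (ha : IsSelfAdjoint a) (h : ∀ r : ℝ, r < 0 → IsUnit (algebraMap ℂ B r - a)) : 0 ≤ a := by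
  rw [StarOrderedRing.nonneg_iff_spectrum_nonneg (R := ℝ) a ha]
  intro r hr
  by_contra hneg
  apply hr
  have := h r (not_le.mp hneg)
  rwa [← Complex.coe_algebraMap, ← IsScalarTower.algebraMap_apply] at this

lemma isPos_iff {A : Type*} [NonUnitalCStarAlgebra A] {n : Type} [Fintype n] (M : Matrix n n A) :
    IsPos M ↔ ∃ B : Matrix n n A, M = Bᴴ * B := by
  let _ := CStarAlgebra.spectralOrder A
  have _ := CStarAlgebra.spectralOrderedRing A
  exact nonneg_iff_aux (B := CStarMatrix n n A) _

lemma posSemidef_iff_exists {n : Type} [Fintype n] (M : Matrix n n ℂ) :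
    M.PosSemidef ↔ ∃ B : Matrix n n ℂ, M = Bᴴ * B := by
  classical
  constructor
  · intro h
    exact CStarAlgebra.nonneg_iff_eq_star_mul_self.mp h.nonneg
  · rintro ⟨B, rfl⟩
    exact Matrix.posSemidef_conjTranspose_mul_self B

lemma isPos_complex {n : Type} [Fintype n] (M : Matrix n n ℂ) : IsPos M ↔ M.PosSemidef := by
  rw [isPos_iff, posSemidef_iff_exists]

/-- Star homomorphisms preserve positivity of matrices. -/
lemma IsPos.map {A B : Type*} [NonUnitalCStarAlgebra A] [NonUnitalCStarAlgebra B] {n : Type}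
    [Fintype n] {M : Matrix n n A} (h : IsPos M) (φ : A →⋆ₙₐ[ℂ] B) : IsPos (M.map φ) := by
  rw [isPos_iff] at h ⊢
  obtain ⟨C, rfl⟩ := h
  refine ⟨C.map φ, ?_⟩
  ext i j
  simp [Matrix.mul_apply, map_sum, map_star]

/-- A matrix of continuous functions is positive iff it is pointwise positive semidefinite. -/
lemma isPos_continuousMap {Y : Type*} [TopologicalSpace Y] [CompactSpace Y] {n : Type} [Fintype n]
    (M : Matrix n n C(Y, ℂ)) :
    IsPos M ↔ ∀ y, (M.map fun f => f y).PosSemidef := by
  classical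
  constructor
  · intro h y
    rw [isPos_iff] at h
    obtain ⟨C, rfl⟩ := h
    rw [posSemidef_iff_exists]
    refine ⟨C.map fun f => f y, ?_⟩
    ext i j
    simp [Matrix.mul_apply]
  · intro h
    let _ := CStarAlgebra.spectralOrder C(Y, ℂ)
    have _ := CStarAlgebra.spectralOrderedRing C(Y, ℂ)
    have hsa : Mᴴ = M := by
      ext i j y
      have := congrFun (congrFun (h y).1 i) j
      simpa using this
    refine nonneg_of_spectrum_aux (B := CStarMatrix n n C(Y, ℂ)) _ hsa ?_
    intro r hneg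
    change IsUnit (algebraMap ℂ (Matrix n n C(Y, ℂ)) r - M)
    rw [Matrix.isUnit_iff_isUnit_det, ContinuousMap.isUnit_iff_forall_ne_zero]
    intro y
    have e : (algebraMap ℂ (Matrix n n C(Y, ℂ)) r - M).det y =
        (-((M.map fun f => f y) + ((-r : ℝ) : ℂ) • (1 : Matrix n n ℂ))).det := by
      have := (ContinuousMap.evalAlgHom ℂ ℂ y).toRingHom.map_det
        (algebraMap ℂ (Matrix n n C(Y, ℂ)) r - M)
      refine this.trans ?_
      congr 1
      ext i j
      by_cases hij : i = j <;> simp [Matrix.algebraMap_matrix_apply, hij, sub_eq_add_neg]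
    rw [e, Matrix.det_neg]
    have hpd : ((M.map fun f => f y) + ((-r : ℝ) : ℂ) • (1 : Matrix n n ℂ)).PosDef :=
      Matrix.PosDef.posSemidef_add (h y) (Matrix.PosDef.one.smul (by exact_mod_cast neg_pos.mpr hneg))
    exact mul_ne_zero (pow_ne_zero _ (by norm_num)) hpd.det_pos.ne'

end Pool.Agent.P.MP_76760e_an
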