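import Pool.Agent.P.MP_76760e_an.Obstruction

/-!
If the three point set has the `A`-extension property, then `A` is commutative.
-/

open scoped Matrix CStarAlgebra ComplexStarModule
open Filter Topology

namespace Pool.Agent.P.MP_76760e_an

section unital

variable {B : Type*} [CStarAlgebra B]

lemma IsPos.star_apply {A : Type*} [NonUnitalCStarAlgebra A] {n : Type} [Fintype n]
    {N : Matrix n n A} (h : IsPos N) (i j : n) : star (N i j) = N j i := by
  obtain ⟨C, rfl⟩ := (isPos_iff N).mp h
  simp [Matrix.mul_apply, star_sum]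

lemma IsPos.rel {n : Type} [Fintype n] {N : Matrix n n B} (h : IsPos N) (i j : n) (y : B)
    (hy : star y * N i i * y - star y * N i j - N j i * y + N j j = 0) (k : n) :
    N k i * y = N k j := by
  let _ := CStarAlgebra.spectralOrder B
  have _ := CStarAlgebra.spectralOrderedRing B
  obtain ⟨C, rfl⟩ := (isPos_iff N).mp h
  have h1 : ∑ r, star (C r i * y - C r j) * (C r i * y - C r j) = 0 := by
    rw [← hy]
    simp only [Matrix.mul_apply, Matrix.conjTranspose_apply, Finset.mul_sum, Finset.sum_mul,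
      ← Finset.sum_sub_distrib, ← Finset.sum_add_distrib, star_sub, star_mul]
    exact Finset.sum_congr rfl fun r _ => by noncomm_ring
  have h2 : ∀ r, C r i * y = C r j := by
    intro r
    have := (Finset.sum_eq_zero_iff_of_nonneg fun r _ => star_mul_self_nonneg _).mp h1 r
      (Finset.mem_univ r)
    exact sub_eq_zero.mp ((CStarRing.star_mul_self_eq_zero_iff _).mp this)
  simp only [Matrix.mul_apply, Matrix.conjTranspose_apply, Finset.sum_mul, mul_assoc, h2]

lemma exists_resolvent {H : B} (hH : IsSelfAdjoint H) :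
    ∃ R : B, R * (1 - Complex.I • H) = 1 ∧ (1 - Complex.I • H) * R = 1 := by
  have h : (-Complex.I) ∉ spectrum ℂ H := fun h => by
    have := congrArg Complex.im (hH.mem_spectrum_eq_re h)
    simp at this
  rw [spectrum.notMem_iff] at h
  have e : 1 - Complex.I • H = Complex.I • (algebraMap ℂ B (-Complex.I) - H) := by
    rw [smul_sub, Algebra.algebraMap_eq_smul_one, smul_smul]
    simp
  have h2 : IsUnit (1 - Complex.I • H) := by
    rw [e]
    exact h.smul (Units.mk0 Complex.I Complex.I_ne_zero)
  obtain ⟨u, hu⟩ := h2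
  exact ⟨↑u⁻¹, by simp [← hu], by simp [← hu]⟩

lemma cancel_sq {X y : B} (hX : star X = X) (h : X * X * y = 0) : X * y = 0 := by
  apply (CStarRing.star_mul_self_eq_zero_iff _).mp
  rw [star_mul, hX, mul_assoc, ← mul_assoc X X y, h, mul_zero]

lemma cancel_both {X w : B} (hX : star X = X) (h : X * (X * w * X) * X = 0) : X * w * X = 0 := by
  have h1 : X * (w * (X * X)) = 0 := cancel_sq hX (by rw [← h]; noncomm_ring)
  have h2 : X * X * (star w * X) = 0 := by
    have := congrArg star h1
    simpa [star_mul, hX, mul_assoc] using this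
  have := congrArg star (cancel_sq hX h2)
  simpa [star_mul, hX, mul_assoc] using this

/-- The Cayley transform of `X h X`. -/
lemma exists_cayley {X h : B} (hX : star X = X) (hh : star h = h) :
    ∃ R U U' p q : B, R * (1 - Complex.I • (X * h * X)) = 1 ∧
      (1 - Complex.I • (X * h * X)) * R = 1 ∧ U = 2 * R - 1 ∧ star U * U = 1 ∧ U * X = X * U' ∧
      U - 1 = X * p ∧ U - 1 = q * X := by
  have hH : IsSelfAdjoint (X * h * X) := by
    simp [IsSelfAdjoint, star_mul, hX, hh, mul_assoc]
  obtain ⟨R, h1, h2⟩ := exists_resolvent hH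
  have h3 : star R * (1 + Complex.I • (X * h * X)) = 1 := by
    have := congrArg star h2
    simpa [star_mul, star_smul, hH.star_eq, hX, hh, mul_assoc] using this
  obtain ⟨J, hJ⟩ : ∃ J, J = Complex.I • h := ⟨_, rfl⟩
  have eJ : Complex.I • (X * h * X) = X * J * X := by simp [hJ]
  rw [eJ] at h1 h2 h3 ⊢
  have e1 : R = 1 + X * J * X * R := by rw [← h2]; nth_rewrite 3 [← one_mul R]; noncomm_ring
  have e2 : R = 1 + R * (X * J * X) := by rw [← h1]; nth_rewrite 3 [← one_mul R]; noncomm_ring
  refine ⟨R, 2 * R - 1, 1 + 2 * (J * X * R * X), 2 * (J * X * R), 2 * (R * X * J), h1, h2, rfl,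
    ?_, ?_, ?_, ?_⟩
  · have e : 2 * (star R * R) = R + star R := by
      calc 2 * (star R * R) = star R * (1 + X * J * X) * R + star R * ((1 - X * J * X) * R) := by
            noncomm_ring
        _ = R + star R := by rw [h3, h2, one_mul, mul_one]
    have e' : star (2 * R - 1) = 2 * star R - 1 := by simp [two_mul]
    rw [e']
    calc (2 * star R - 1) * (2 * R - 1) = 2 * (2 * (star R * R)) - 2 * (R + star R) + 1 := by
          noncomm_ring
      _ = 1 := by rw [e]; noncomm_ring
  · nth_rewrite 1 [e1]; noncomm_ring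
  · nth_rewrite 1 [e1]; noncomm_ring
  · nth_rewrite 1 [e2]; noncomm_ring

end unital

variable {A : Type*} [NonUnitalCStarAlgebra A]

lemma exists_inr_eq_mul (b : A⁺¹) (a : A) : ∃ c : A, (c : A⁺¹) = b * a := by
  induction b using Unitization.ind with
  | inl_add_inr r s => exact ⟨r • a + s * a, by simp [add_mul, Unitization.inl_mul_inr]⟩

/-- The four point set. -/
def K4 : Finset (ℤ × ℤ) := {(0, 0), (1, 0), (0, 1), (1, 1)}

lemma comm_aux (hA : HasExt A tri) {x h k : A} (hx : star x = x) (hh : star h = h)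
    (hk : star k = k) : (x * h * x) * (x * k * x) = (x * k * x) * (x * h * x) := by
  have hX : star (x : A⁺¹) = x := by rw [← Unitization.inr_star, hx]
  obtain ⟨R, U, U', p, q, r1, r2, hU, u1, u2, u3, u4⟩ :=
    exists_cayley (h := (h : A⁺¹)) hX (by rw [← Unitization.inr_star, hh])
  obtain ⟨S, V, V', p', q', s1, s2, hV, v1, v2, v3, v4⟩ :=
    exists_cayley (h := (k : A⁺¹)) hX (by rw [← Unitization.inr_star, hk])
  obtain ⟨z, hz⟩ := exists_inr_eq_mul U x
  obtain ⟨w, hw⟩ := exists_inr_eq_mul V x
  have nn : ∀ (T : A⁺¹) (t : A), star T * T = 1 → (t : A⁺¹) = T * x →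
      star t * t + star (0 : A) * 0 = star x * x + star (0 : A) * 0 := by
    intro T t hT ht
    apply Unitization.inr_injective (R := ℂ)
    simp only [mul_zero, add_zero, Unitization.inr_mul, Unitization.inr_star, ht, star_mul]
    rw [mul_assoc, ← mul_assoc (star T), hT, one_mul]
  obtain ⟨b, hb, e0, e1, e2, -⟩ := exists_ext_tri hA x z w 0 0 0 (nn U z u1 hz) (nn V w v1 hw) K4
    (by decide)
  have hB := hb.map (Unitization.inrNonUnitalStarAlgHom ℂ A)
  have m0 : ((0, 0) : ℤ × ℤ) ∈ K4 := by decide
  have m1 : ((1, 0) : ℤ × ℤ) ∈ K4 := by decide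
  have m2 : ((0, 1) : ℤ × ℤ) ∈ K4 := by decide
  have m3 : ((1, 1) : ℤ × ℤ) ∈ K4 := by decide
  have f0 : (b 0 : A⁺¹) = x * x := by
    rw [show b 0 = b (0, 0) from rfl, e0]; simp [hx]
  have f1 : (b (1, 0) : A⁺¹) = x * star U * x := by rw [e1]; simp [hz, hX]
  have f2 : (b (0, 1) : A⁺¹) = x * star V * x := by rw [e2]; simp [hw, hX]
  have g1 : (b (-1, 0) : A⁺¹) = x * U * x := by
    have := hB.star_apply ⟨_, m1⟩ ⟨_, m0⟩
    simp [toeplitz, f1, hX] at this
    rw [← this, mul_assoc]
  have g2 : (b (0, -1) : A⁺¹) = x * V * x := by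
    have := hB.star_apply ⟨_, m2⟩ ⟨_, m0⟩
    simp [toeplitz, f2, hX] at this
    rw [← this, mul_assoc]
  have q0 : ∀ T T' : A⁺¹, star T * T = 1 → T * x = x * T' →
      star T' * ((x : A⁺¹) * x) * T' - star T' * (x * T * x) - x * star T * x * T' + x * x = 0 := by
    intro T T' hT hT'
    have a1 : star T' * x = x * star T := by
      have := congrArg star hT'
      simpa [star_mul, hX] using this.symm
    calc star T' * ((x : A⁺¹) * x) * T' - star T' * (x * T * x) - x * star T * x * T' + x * x
        = (star T' * x) * (x * T') - (star T' * x) * (T * x) - x * star T * (x * T') + x * x := by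
          noncomm_ring
      _ = x * x - x * (star T * T) * x := by rw [a1, ← hT']; noncomm_ring
      _ = 0 := by rw [hT]; noncomm_ring
  have k1 := hB.rel ⟨_, m2⟩ ⟨_, m3⟩ U' (by simpa [toeplitz, f0, f1, g1] using q0 U U' u1 u2) ⟨_, m0⟩
  have k2 := hB.rel ⟨_, m1⟩ ⟨_, m3⟩ V' (by simpa [toeplitz, f0, f2, g2] using q0 V V' v1 v2) ⟨_, m0⟩
  simp [toeplitz, g1, g2] at k1 k2
  have d1 : U * V - V * U = x * (p * q' - p' * q) * x := by
    calc U * V - V * U = (U - 1) * (V - 1) - (V - 1) * (U - 1) := by noncomm_ring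
      _ = (x * p) * (q' * x) - (x * p') * (q * x) := by rw [← u3, ← v4, ← v3, ← u4]
      _ = x * (p * q' - p' * q) * x := by noncomm_ring
  have d2 : (x : A⁺¹) * (U * V - V * U) * x = 0 := by
    calc (x : A⁺¹) * (U * V - V * U) * x = x * U * (V * x) - x * V * (U * x) := by noncomm_ring
      _ = x * U * x * V' - x * V * x * U' := by rw [u2, v2]; noncomm_ring
      _ = 0 := by rw [k1, k2, sub_self]
  have d3 : U * V - V * U = 0 := by
    rw [d1] at d2 ⊢
    exact cancel_both hX d2
  have d4 : R * S = S * R := by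
    have : (4 : ℂ) • (R * S - S * R) = 0 := by
      rw [← d3, hU, hV, show (4 : ℂ) = 1 + 1 + 1 + 1 by norm_num]
      simp only [add_smul, one_smul]
      noncomm_ring
    exact sub_eq_zero.mp ((smul_eq_zero.mp this).resolve_left (by norm_num))
  generalize hH : (x : A⁺¹) * h * x = H at r1 r2
  generalize hK : (x : A⁺¹) * k * x = K at s1 s2
  have d5 : (1 - Complex.I • H) * (1 - Complex.I • K) = (1 - Complex.I • K) * (1 - Complex.I • H) := by
    generalize 1 - Complex.I • H = P at r1 r2
    generalize 1 - Complex.I • K = Q at s1 s2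
    calc P * Q = Q * (P * (R * S)) * (P * Q) := by
          rw [← mul_assoc P R, r2, one_mul, s2, one_mul]
      _ = Q * P * (S * (R * P) * Q) := by rw [d4]; noncomm_ring
      _ = Q * P := by rw [r1, mul_one, s1, mul_one]
  have d6 : H * K = K * H := by
    have : (1 - Complex.I • H) * (1 - Complex.I • K) - (1 - Complex.I • K) * (1 - Complex.I • H)
        = K * H - H * K := by
      simp only [mul_sub, sub_mul, mul_one, one_mul, smul_mul_smul_comm, Complex.I_mul_I,
        neg_smul, one_smul]
      abel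
    rw [d5, sub_self] at this
    exact (sub_eq_zero.mp this.symm).symm
  apply Unitization.inr_injective (R := ℂ)
  simp only [Unitization.inr_mul, hH, hK, d6]

theorem comm_of_hasExt (hA : HasExt A tri) (x y : A) : x * y = y * x := by
  let _ := CStarAlgebra.spectralOrder A
  have _ := CStarAlgebra.spectralOrderedRing A
  have hl := CStarAlgebra.increasingApproximateUnit A
  have lim : ∀ h : A, Tendsto (fun e => e * h * e) (CStarAlgebra.approximateUnit A) (𝓝 h) := by
    intro h
    have h1 : Tendsto (fun e => (e * h - h) * e) (CStarAlgebra.approximateUnit A) (𝓝 0) := by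
      refine Tendsto.zero_mul_isBoundedUnder_le ?_ ⟨1, hl.eventually_norm⟩
      simpa using (hl.tendsto_mul_right h).sub_const h
    have := h1.add (hl.tendsto_mul_left h)
    simpa [sub_mul] using this
  have sa : ∀ h k : A, star h = h → star k = k → h * k = k * h := by
    intro h k hh hk
    refine tendsto_nhds_unique_of_eventuallyEq ((lim h).mul (lim k)) ((lim k).mul (lim h)) ?_
    filter_upwards [hl.eventually_star_eq] with e he
    exact comm_aux hA he hh hk
  rw [← realPart_add_I_smul_imaginaryPart x, ← realPart_add_I_smul_imaginaryPart y]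
  simp only [add_mul, mul_add, smul_mul_assoc, mul_smul_comm,
    sa (ℜ x : A) (ℜ y : A) (ℜ x).2 (ℜ y).2, sa (ℜ x : A) (ℑ y : A) (ℜ x).2 (ℑ y).2,
    sa (ℑ x : A) (ℜ y : A) (ℑ x).2 (ℜ y).2, sa (ℑ x : A) (ℑ y : A) (ℑ x).2 (ℑ y).2, smul_add]
  abel

end Pool.Agent.P.MP_76760e_an
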