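import Mathlib

namespace Pool.Agent.P.MP_76760e_an

/-- Positivity in the C*-algebra of `n × n` matrices over the C*-algebra `A`. -/
def IsPos {A : Type*} [NonUnitalCStarAlgebra A] {n : Type} [Fintype n] (M : Matrix n n A) : Prop :=
  letI := CStarAlgebra.spectralOrder A
  haveI := CStarAlgebra.spectralOrderedRing A
  0 ≤ CStarMatrix.ofMatrix M

/-- The two-level Toeplitz matrix `[a (i - j)]`, `i, j ∈ Λ`. -/
def toeplitz {A : Type*} (a : ℤ × ℤ → A) (Λ : Finset (ℤ × ℤ)) : Matrix Λ Λ A :=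
  Matrix.of fun i j => a (i.1 - j.1)

/-- `Λ` has the `A`-extension property. -/
def HasExt (A : Type*) [NonUnitalCStarAlgebra A] (Λ : Finset (ℤ × ℤ)) : Prop :=
  ∀ a : ℤ × ℤ → A, IsPos (toeplitz a Λ) → ∀ K : Finset (ℤ × ℤ), Λ ⊆ K →
    ∃ b : ℤ × ℤ → A, (∀ i ∈ Λ, ∀ j ∈ Λ, b (i - j) = a (i - j)) ∧ IsPos (toeplitz b K)

/-- `A` is planar-admissible. -/
def PlanarAdmissible (A : Type*) [NonUnitalCStarAlgebra A] : Prop :=
  ∀ Λ : Finset (ℤ × ℤ), HasExt ℂ Λ ↔ HasExt A Λ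

end Pool.Agent.P.MP_76760e_an
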