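import Mathlib

/-!
Continuous selections on spaces in which disjoint sigma-compact open sets have disjoint closures.
-/

open Set Filter Topology

namespace Pool.Agent.P.MP_76760e_an

variable {Y : Type*} [TopologicalSpace Y] [CompactSpace Y] [T2Space Y]

lemma insertion_strict {φ ψ : Y → ℝ} (hφ : UpperSemicontinuous φ) (hψ : LowerSemicontinuous ψ)
    (u v : Y → ℝ) (hu : Continuous u) (hv : Continuous v) (ε : ℝ)
    (h : ∀ y, max (φ y - ε) (u y) < min (ψ y + ε) (v y)) :
    ∃ g : C(Y, ℝ), ∀ y, max (φ y - ε) (u y) < g y ∧ g y < min (ψ y + ε) (v y) := by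
  refine exists_continuous_forall_mem_convex_of_local_const
    (t := fun y => Ioo (max (φ y - ε) (u y)) (min (ψ y + ε) (v y))) (fun y => convex_Ioo _ _) ?_
  intro y
  obtain ⟨c, hc1, hc2⟩ := exists_between (h y)
  rw [max_lt_iff] at hc1
  rw [lt_min_iff] at hc2
  refine ⟨c, ?_⟩
  filter_upwards [hφ y (c + ε) (by linarith [hc1.1]), hψ y (c - ε) (by linarith [hc2.1]),
    hu.continuousAt.eventually_lt continuousAt_const hc1.2,
    continuousAt_const.eventually_lt hv.continuousAt hc2.2] with z h1 h2 h3 h4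
  exact ⟨max_lt (by linarith) h3, lt_min (by linarith) h4⟩

/-- The insertion theorem of Katetov and Tong, for compact Hausdorff spaces and bounded
functions. -/
lemma insertion {φ ψ : Y → ℝ} (hφ : UpperSemicontinuous φ) (hψ : LowerSemicontinuous ψ)
    (h : ∀ y, φ y ≤ ψ y) (R : ℝ) (hR : ∀ y, φ y ≤ R) (hR' : ∀ y, -R ≤ ψ y) (hR0 : 0 ≤ R) :
    ∃ g : C(Y, ℝ), ∀ y, φ y ≤ g y ∧ g y ≤ ψ y := by
  let P : ℕ → C(Y, ℝ) → Prop := fun n g => ∀ y, φ y - (1 / 2) ^ n < g y ∧ g y < ψ y + (1 / 2) ^ n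
  have h0 : ∃ g, P 0 g := by
    obtain ⟨g, hg⟩ := insertion_strict hφ hψ (fun _ => -R - 1) (fun _ => R + 1) continuous_const
      continuous_const 1 (fun y => by
        have := h y; have := hR y; have := hR' y
        exact max_lt (lt_min (by linarith) (by linarith)) (lt_min (by linarith) (by linarith)))
    exact ⟨g, fun y => ⟨by simpa using (max_lt_iff.mp (hg y).1).1,
      by simpa using (lt_min_iff.mp (hg y).2).1⟩⟩
  have hs : ∀ n g, P n g → ∃ g', P (n + 1) g' ∧ dist g g' ≤ 1 * (1 / 2) ^ n := by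
    intro n g hg
    have hpos : (0 : ℝ) < (1 / 2) ^ n := by positivity
    have e : ((1 : ℝ) / 2) ^ (n + 1) = (1 / 2) ^ n / 2 := by ring
    obtain ⟨g', hg'⟩ := insertion_strict hφ hψ (fun y => g y - (1 / 2) ^ n)
      (fun y => g y + (1 / 2) ^ n) (by fun_prop) (by fun_prop) ((1 / 2) ^ (n + 1)) (fun y => by
        have := h y; have := hg y
        rw [e]
        exact max_lt (lt_min (by linarith) (by linarith)) (lt_min (by linarith) (by linarith)))
    refine ⟨g', fun y => ⟨(max_lt_iff.mp (hg' y).1).1, (lt_min_iff.mp (hg' y).2).1⟩, ?_⟩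
    rw [ContinuousMap.dist_le (by positivity)]
    intro y
    have h1 := (max_lt_iff.mp (hg' y).1).2
    have h2 := (lt_min_iff.mp (hg' y).2).2
    rw [Real.dist_eq, abs_le]
    constructor <;> linarith
  choose! step hstep using hs
  obtain ⟨g0, hg0⟩ := h0
  let G : ℕ → C(Y, ℝ) := fun n => Nat.rec g0 step n
  have hG : ∀ n, P n (G n) := by
    intro n
    induction n with
    | zero => exact hg0
    | succ n ih => exact (hstep n _ ih).1
  have hc : CauchySeq G :=
    cauchySeq_of_le_geometric (1 / 2) 1 (by norm_num) fun n => (hstep n _ (hG n)).2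
  obtain ⟨g, hg⟩ := cauchySeq_tendsto_of_complete hc
  have hp : Tendsto (fun n : ℕ => ((1 : ℝ) / 2) ^ n) atTop (𝓝 0) :=
    tendsto_pow_atTop_nhds_zero_of_lt_one (by norm_num) (by norm_num)
  refine ⟨g, fun y => ?_⟩
  have hy : Tendsto (fun n => G n y) atTop (𝓝 (g y)) :=
    ((continuous_eval_const y).tendsto g).comp hg
  constructor
  · have := le_of_tendsto_of_tendsto' (tendsto_const_nhds.sub hp) hy fun n => (hG n y).1.le
    simpa using this
  · have := le_of_tendsto_of_tendsto' hy (tendsto_const_nhds.add hp) fun n => (hG n y).2.le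
    simpa using this

/-- Disjoint sigma-compact open sets that miss `y₀` have closures meeting at most in `y₀`. -/
def FAt (y₀ : Y) : Prop :=
  ∀ U V : Set Y, IsOpen U → IsOpen V → IsSigmaCompact U → IsSigmaCompact V → y₀ ∉ U → y₀ ∉ V →
    Disjoint U V → closure U ∩ closure V ⊆ {y₀}

omit [T2Space Y] in
lemma isSigmaCompact_preimage {E : Type*} [MetricSpace E] {f : Y → E} (hf : Continuous f)
    {O : Set E} (hO : IsOpen O) : IsSigmaCompact (f ⁻¹' O) := by
  obtain ⟨F, hF, -, rfl, -⟩ := hO.exists_iUnion_isClosed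
  exact ⟨fun n => f ⁻¹' F n, fun n => ((hF n).preimage hf).isCompact, by simp⟩

lemma lift_one {y₀ : Y} (hF : FAt y₀) {E : Type*} [MetricSpace E] {C : Set (E × ℝ)}
    (hC : IsCompact C) {f : Y → E} (hf : Continuous f) (hne : ∀ y, ∃ t, (f y, t) ∈ C)
    (hconv : ∀ y a b t, (f y, a) ∈ C → (f y, b) ∈ C → a ≤ t → t ≤ b → (f y, t) ∈ C)
    (h0 : ∀ a b, (f y₀, a) ∈ C → (f y₀, b) ∈ C → a = b) :
    ∃ h : C(Y, ℝ), ∀ y, (f y, h y) ∈ C := by
  let OL : ℝ → Set E := fun r => (Prod.fst '' (C ∩ {p | p.2 ≤ r}))ᶜ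
  let OU : ℝ → Set E := fun r => (Prod.fst '' (C ∩ {p | r ≤ p.2}))ᶜ
  have hOL : ∀ r, IsOpen (OL r) := fun r =>
    ((hC.inter_right (isClosed_le continuous_snd continuous_const)).image
      continuous_fst).isClosed.isOpen_compl
  have hOU : ∀ r, IsOpen (OU r) := fun r =>
    ((hC.inter_right (isClosed_le continuous_const continuous_snd)).image
      continuous_fst).isClosed.isOpen_compl
  have mL : ∀ r y, y ∈ f ⁻¹' OL r ↔ ∀ t, (f y, t) ∈ C → r < t := by
    intro r y
    simp [OL]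
  have mU : ∀ r y, y ∈ f ⁻¹' OU r ↔ ∀ t, (f y, t) ∈ C → t < r := by
    intro r y
    simp [OU]
  have dis : ∀ r s, s ≤ r → ∀ y, y ∈ f ⁻¹' OL r → y ∈ f ⁻¹' OU s → False := by
    intro r s hsr y h1 h2
    obtain ⟨t, ht⟩ := hne y
    linarith [(mL r y).mp h1 t ht, (mU s y).mp h2 t ht]
  have key : ∀ y r s, y ∈ closure (f ⁻¹' OL r) → y ∈ closure (f ⁻¹' OU s) → r ≤ s := by
    intro y r s h1 h2
    by_contra hsr
    push Not at hsr
    by_cases hy : f y = f y₀
    · obtain ⟨t0, ht0⟩ := hne y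
      have huniq : ∀ t, (f y, t) ∈ C → t = t0 := fun t ht => h0 _ _ (hy ▸ ht) (hy ▸ ht0)
      rcases lt_or_ge t0 r with h | h
      · obtain ⟨z, hz1, hz2⟩ := mem_closure_iff.mp h1 _ ((hOU r).preimage hf)
          ((mU r y).mpr fun t ht => huniq t ht ▸ h)
        exact dis r r le_rfl z hz2 hz1
      · obtain ⟨z, hz1, hz2⟩ := mem_closure_iff.mp h2 _ ((hOL s).preimage hf)
          ((mL s y).mpr fun t ht => huniq t ht ▸ lt_of_lt_of_le hsr h)
        exact dis s s le_rfl z hz1 hz2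
    · have hW : IsOpen ({f y₀}ᶜ : Set E) := isOpen_compl_singleton
      have := hF (f ⁻¹' ({f y₀}ᶜ ∩ OL r)) (f ⁻¹' ({f y₀}ᶜ ∩ OU s))
        ((hW.inter (hOL r)).preimage hf) ((hW.inter (hOU s)).preimage hf)
        (isSigmaCompact_preimage hf (hW.inter (hOL r)))
        (isSigmaCompact_preimage hf (hW.inter (hOU s))) (by simp) (by simp)
        (disjoint_left.mpr fun z hz1 hz2 => dis r s hsr.le z hz1.2 hz2.2)
        ⟨(hW.preimage hf).inter_closure ⟨hy, h1⟩, (hW.preimage hf).inter_closure ⟨hy, h2⟩⟩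
      exact hy (by rw [mem_singleton_iff.mp this])
  obtain ⟨R, hR⟩ := (hC.image continuous_snd).isBounded.exists_pos_norm_lt
  have hR' : ∀ y t, (f y, t) ∈ C → -R < t ∧ t < R := fun y t ht =>
    abs_lt.mp (hR.2 t ⟨_, ht, rfl⟩)
  have nL : ∀ y, -R ∈ {r | y ∈ closure (f ⁻¹' OL r)} := fun y =>
    subset_closure ((mL _ y).mpr fun t ht => (hR' y t ht).1)
  have nU : ∀ y, R ∈ {r | y ∈ closure (f ⁻¹' OU r)} := fun y =>
    subset_closure ((mU _ y).mpr fun t ht => (hR' y t ht).2)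
  have bL : ∀ y, BddAbove {r | y ∈ closure (f ⁻¹' OL r)} := fun y =>
    ⟨R, fun r hr => key y r R hr (nU y)⟩
  have bU : ∀ y, BddBelow {r | y ∈ closure (f ⁻¹' OU r)} := fun y =>
    ⟨-R, fun r hr => key y (-R) r (nL y) hr⟩
  obtain ⟨h, hh⟩ := insertion (φ := fun y => sSup {r | y ∈ closure (f ⁻¹' OL r)})
    (ψ := fun y => sInf {r | y ∈ closure (f ⁻¹' OU r)}) (by
      intro y c hc
      obtain ⟨c', h1, h2⟩ := exists_between hc
      have hy : y ∈ (closure (f ⁻¹' OL c'))ᶜ := fun hy => (le_csSup (bL y) hy).not_gt h1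
      filter_upwards [isClosed_closure.isOpen_compl.mem_nhds hy] with z hz
      refine lt_of_le_of_lt (csSup_le ⟨_, nL z⟩ fun r hr => ?_) h2
      by_contra hlt
      push Not at hlt
      refine hz (closure_mono (fun w hw => ?_) hr)
      exact (mL _ w).mpr fun t ht => hlt.trans ((mL _ w).mp hw t ht)) (by
      intro y c hc
      obtain ⟨c', h1, h2⟩ := exists_between hc
      have hy : y ∈ (closure (f ⁻¹' OU c'))ᶜ := fun hy => (csInf_le (bU y) hy).not_gt h2
      filter_upwards [isClosed_closure.isOpen_compl.mem_nhds hy] with z hz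
      refine lt_of_lt_of_le h1 (le_csInf ⟨_, nU z⟩ fun r hr => ?_)
      by_contra hlt
      push Not at hlt
      refine hz (closure_mono (fun w hw => ?_) hr)
      exact (mU _ w).mpr fun t ht => ((mU _ w).mp hw t ht).trans hlt)
    (fun y => csSup_le ⟨_, nL y⟩ fun r hr => le_csInf ⟨_, nU y⟩ fun s hs => key y r s hr hs) R
    (fun y => csSup_le ⟨_, nL y⟩ fun r hr => key y r R hr (nU y))
    (fun y => le_csInf ⟨_, nU y⟩ fun r hr => key y (-R) r (nL y) hr) hR.1.le
  refine ⟨h, fun y => ?_⟩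
  have hc : IsCompact {t | (f y, t) ∈ C} :=
    (hC.image continuous_snd).of_isClosed_subset
      (hC.isClosed.preimage (f := fun t => (f y, t)) (by fun_prop)) fun t ht => ⟨_, ht, rfl⟩
  obtain ⟨a, ha, ha'⟩ := hc.exists_isLeast (hne y)
  obtain ⟨b, hb, hb'⟩ := hc.exists_isGreatest (hne y)
  refine hconv y a b _ ha hb ?_ ?_
  · refine le_of_forall_lt_imp_le_of_dense fun r hr => le_trans ?_ (hh y).1
    exact le_csSup (bL y) (subset_closure ((mL r y).mpr fun t ht => hr.trans_le (ha' ht)))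
  · refine le_of_forall_gt_imp_ge_of_dense fun r hr => le_trans (hh y).2 ?_
    exact csInf_le (bU y) (subset_closure ((mU r y).mpr fun t ht => (hb' ht).trans_lt hr))

lemma lift_pi {y₀ : Y} (hF : FAt y₀) {E : Type*} [MetricSpace E] {ι : Type*} [Fintype ι]
    {C : Set (E × (ι → ℝ))} (hC : IsCompact C) {f : Y → E} (hf : Continuous f)
    (hne : ∀ y, ∃ t, (f y, t) ∈ C) (hconv : ∀ y, Convex ℝ {t | (f y, t) ∈ C})
    (h0 : ∀ a b, (f y₀, a) ∈ C → (f y₀, b) ∈ C → a = b) :
    ∃ g : C(Y, ι → ℝ), ∀ y, (f y, g y) ∈ C := by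
  classical
  have main : ∀ S : Finset ι, ∃ g : C(Y, ι → ℝ), ∀ y, ∃ t, (f y, t) ∈ C ∧ ∀ i ∈ S, t i = g y i := by
    intro S
    induction S using Finset.induction_on with
    | empty => exact ⟨0, fun y => by simpa using hne y⟩
    | insert j S hj ih =>
      obtain ⟨g, hg⟩ := ih
      let D : Set ((E × (ι → ℝ)) × (ι → ℝ)) :=
        (C ×ˢ range g) ∩ {q | ∀ i ∈ S, q.1.2 i = q.2 i}
      have hD : IsCompact D := by
        refine (hC.prod (isCompact_range g.continuous)).inter_right ?_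
        simp only [Set.ofPred_forall]
        exact isClosed_iInter fun i => isClosed_iInter fun _ => isClosed_eq (by fun_prop)
          (by fun_prop)
      let C' : Set ((E × (ι → ℝ)) × ℝ) := (fun q => ((q.1.1, q.2), q.1.2 j)) '' D
      have mC : ∀ y r, ((f y, g y), r) ∈ C' ↔
          ∃ t, (f y, t) ∈ C ∧ (∀ i ∈ S, t i = g y i) ∧ t j = r := by
        intro y r
        constructor
        · rintro ⟨⟨⟨e, t⟩, u⟩, ⟨⟨h1, -⟩, h2⟩, h3⟩
          simp only [Prod.mk.injEq] at h3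
          obtain ⟨⟨rfl, rfl⟩, rfl⟩ := h3
          exact ⟨t, h1, h2, rfl⟩
        · rintro ⟨t, h1, h2, rfl⟩
          exact ⟨((f y, t), g y), ⟨⟨h1, mem_range_self y⟩, h2⟩, rfl⟩
      obtain ⟨h, hh⟩ := lift_one hF (C := C') (hD.image (by fun_prop))
        (f := fun y => (f y, g y)) (by fun_prop)
        (fun y => by
          obtain ⟨t, h1, h2⟩ := hg y
          exact ⟨t j, (mC y _).mpr ⟨t, h1, h2, rfl⟩⟩)
        (fun y a b r ha hb h1 h2 => by
          obtain ⟨s, s1, s2, rfl⟩ := (mC y _).mp ha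
          obtain ⟨t, t1, t2, rfl⟩ := (mC y _).mp hb
          obtain ⟨α, β, hα, hβ, hαβ, rfl⟩ := (Convex.mem_Icc (h1.trans h2)).mp ⟨h1, h2⟩
          refine (mC y _).mpr ⟨α • s + β • t, hconv y s1 t1 hα hβ hαβ, fun i hi => ?_, by simp⟩
          simp only [Pi.add_apply, Pi.smul_apply, smul_eq_mul, s2 i hi, t2 i hi]
          rw [← add_mul, hαβ, one_mul])
        (fun a b ha hb => by
          obtain ⟨s, s1, -, rfl⟩ := (mC y₀ _).mp ha
          obtain ⟨t, t1, -, rfl⟩ := (mC y₀ _).mp hb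
          rw [h0 s t s1 t1])
      refine ⟨⟨fun y => Function.update (g y) j (h y), g.continuous.update j h.continuous⟩,
        fun y => ?_⟩
      obtain ⟨t, h1, h2, h3⟩ := (mC y _).mp (hh y)
      refine ⟨t, h1, fun i hi => ?_⟩
      rcases Finset.mem_insert.mp hi with rfl | hi
      · simp [h3]
      · have : i ≠ j := fun e => hj (e ▸ hi)
        simp [this, h2 i hi]
  obtain ⟨g, hg⟩ := main Finset.univ
  refine ⟨g, fun y => ?_⟩
  obtain ⟨t, h1, h2⟩ := hg y
  rwa [show g y = t from funext fun i => (h2 i (Finset.mem_univ i)).symm]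

/-- Continuous lifting through a compact set with convex finite-dimensional fibres. -/
lemma lift_findim {y₀ : Y} (hF : FAt y₀) {E : Type*} [MetricSpace E] {W : Type*}
    [NormedAddCommGroup W] [NormedSpace ℝ W] [FiniteDimensional ℝ W]
    {C : Set (E × W)} (hC : IsCompact C) {f : Y → E} (hf : Continuous f)
    (hne : ∀ y, ∃ t, (f y, t) ∈ C) (hconv : ∀ y, Convex ℝ {t | (f y, t) ∈ C})
    (h0 : ∀ a b, (f y₀, a) ∈ C → (f y₀, b) ∈ C → a = b) :
    ∃ g : C(Y, W), ∀ y, (f y, g y) ∈ C := by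
  let e := (Module.finBasis ℝ W).equivFunL
  have m : ∀ x t, (x, t) ∈ Prod.map id e '' C ↔ (x, e.symm t) ∈ C := by
    intro x t
    constructor
    · rintro ⟨⟨x', w⟩, h, h'⟩
      simp only [Prod.map_apply, id, Prod.mk.injEq] at h'
      obtain ⟨rfl, rfl⟩ := h'
      simpa using h
    · intro h
      exact ⟨_, h, by simp⟩
  obtain ⟨g, hg⟩ := lift_pi hF (C := Prod.map id e '' C) (hC.image (by fun_prop)) hf
    (fun y => by
      obtain ⟨t, ht⟩ := hne y
      exact ⟨e t, (m _ _).mpr (by simpa using ht)⟩)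
    (fun y => by
      simp only [m]
      exact (hconv y).linear_preimage (e.symm : (Fin (Module.finrank ℝ W) → ℝ) →ₗ[ℝ] W))
    (fun a b ha hb => e.symm.injective (h0 _ _ ((m _ _).mp ha) ((m _ _).mp hb)))
  exact ⟨⟨fun y => e.symm (g y), by fun_prop⟩, fun y => (m _ _).mp (hg y)⟩

end Pool.Agent.P.MP_76760e_an
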