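import Pool.Agent.P.MP_76760e_an.Obstruction
import Pool.Agent.P.MP_76760e_an.Lift

/-!
The extension property for the algebra of continuous functions vanishing at a point.
-/

open scoped ComplexOrder MatrixOrder Matrix ComplexConjugate
open Set

namespace Pool.Agent.P.MP_76760e_an

variable {A : Type*} [NonUnitalCStarAlgebra A] {Y : Type*} [TopologicalSpace Y] [CompactSpace Y]
  {y₀ : Y} {G : A →⋆ₙₐ[ℂ] C(Y, ℂ)}

lemma isPos_iff_pointwise (hG : Function.Injective G)
    (hR : ∀ h : C(Y, ℂ), (∃ z, G z = h) ↔ h y₀ = 0) {n : Type} [Fintype n] (M : Matrix n n A) :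
    IsPos M ↔ ∀ y, (M.map fun a => G a y).PosSemidef := by
  constructor
  · intro h
    exact (isPos_continuousMap _).mp (h.map G)
  · intro h
    obtain ⟨B, hB⟩ := (isPos_iff _).mp ((isPos_continuousMap (M.map G)).mpr h)
    have h0 : (B.map fun f => f y₀)ᴴ * (B.map fun f => f y₀) = 0 := by
      ext i j
      have h1 : G (M i j) y₀ = 0 := (hR _).mp ⟨_, rfl⟩
      have h2 := congrArg (fun N : Matrix n n C(Y, ℂ) => N i j y₀) hB
      simp only [Matrix.map_apply, h1] at h2
      simpa [Matrix.mul_apply] using h2.symm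
    rw [Matrix.conjTranspose_mul_self_eq_zero] at h0
    have h1 : ∀ i j, ∃ z, G z = B i j := fun i j => (hR _).mpr (congrFun (congrFun h0 i) j)
    choose C hC using h1
    refine (isPos_iff _).mpr ⟨Matrix.of C, ?_⟩
    ext i j
    apply hG
    have h2 := congrFun (congrFun hB i) j
    simpa [Matrix.mul_apply, map_sum, map_star, hC] using h2

lemma isClosed_posSemidef {n : Type} [Fintype n] :
    IsClosed {w : n → n → ℂ | (Matrix.of w).PosSemidef} := by
  simp only [Matrix.posSemidef_iff_dotProduct_mulVec, Matrix.IsHermitian, ← Matrix.ext_iff,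
    Set.ofPred_and, Set.ofPred_forall, dotProduct, Matrix.mulVec, Matrix.conjTranspose_apply,
    Matrix.of_apply]
  refine IsClosed.inter (isClosed_iInter fun i => isClosed_iInter fun j =>
    isClosed_eq (by fun_prop) (by fun_prop)) (isClosed_iInter fun x =>
    isClosed_le continuous_const (by fun_prop))

lemma hasExt_of_fAt [T2Space Y] (hG : Function.Injective G)
    (hR : ∀ h : C(Y, ℂ), (∃ z, G z = h) ↔ h y₀ = 0) (hF : FAt y₀) {Λ : Finset (ℤ × ℤ)}
    (h : HasExt ℂ Λ) : HasExt A Λ := by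
  classical
  intro a ha K hK
  rcases Λ.eq_empty_or_nonempty with rfl | ⟨i₀, hi₀⟩
  · exact ⟨0, by simp, (isPos_iff _).mpr ⟨0, by ext; simp [toeplitz]⟩⟩
  have ha' := (isPos_iff_pointwise hG hR _).mp ha
  let f : Y → (Λ → Λ → ℂ) := fun y i j => G (a (i.1 - j.1)) y
  have hf : Continuous f := by fun_prop
  let C : Set ((Λ → Λ → ℂ) × (K → K → ℂ)) := {p | p.1 ∈ range f ∧ (Matrix.of p.2).PosSemidef ∧
    (∀ i j i' j' : K, i.1 - j.1 = i'.1 - j'.1 → p.2 i j = p.2 i' j') ∧
    ∀ i j : Λ, p.2 ⟨i, hK i.2⟩ ⟨j, hK j.2⟩ = p.1 i j}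
  have bd : ∀ y w, (f y, w) ∈ C → ‖w‖ ≤ ‖G (a 0) y‖ := by
    rintro y w ⟨-, h2, h3, h4⟩
    have hd : ∀ i : K, w i i = G (a 0) y := by
      intro i
      have h5 := h3 i i ⟨i₀, hK hi₀⟩ ⟨i₀, hK hi₀⟩ (by simp)
      have h6 := h4 ⟨i₀, hi₀⟩ ⟨i₀, hi₀⟩
      simp only [f, sub_self] at h5 h6
      rw [h5, h6]
    refine (pi_norm_le_iff_of_nonneg (norm_nonneg _)).mpr fun i =>
      (pi_norm_le_iff_of_nonneg (norm_nonneg _)).mpr fun j => ?_
    have := normSq_le_of_posSemidef h2 i j
    simp only [Matrix.of_apply, hd, Complex.normSq_eq_norm_sq] at this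
    refine (sq_le_sq₀ (norm_nonneg _) (norm_nonneg _)).mp (this.trans ?_)
    rw [← sq, ← sq_abs]
    gcongr
    exact Complex.abs_re_le_norm _
  have hC : IsCompact C := by
    refine ((isCompact_range hf).prod (isCompact_closedBall 0 ‖G (a 0)‖)).of_isClosed_subset ?_ ?_
    · refine IsClosed.inter ((isCompact_range hf).isClosed.preimage continuous_fst)
        (IsClosed.inter (isClosed_posSemidef.preimage continuous_snd) (IsClosed.inter ?_ ?_))
      · change IsClosed {p : (Λ → Λ → ℂ) × (K → K → ℂ) | ∀ i j i' j' : K,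
          i.1 - j.1 = i'.1 - j'.1 → p.2 i j = p.2 i' j'}
        simp only [Set.ofPred_forall]
        exact isClosed_iInter fun i => isClosed_iInter fun j => isClosed_iInter fun i' =>
          isClosed_iInter fun j' => isClosed_iInter fun _ => isClosed_eq (by fun_prop) (by fun_prop)
      · change IsClosed {p : (Λ → Λ → ℂ) × (K → K → ℂ) | ∀ i j : Λ,
          p.2 ⟨i, hK i.2⟩ ⟨j, hK j.2⟩ = p.1 i j}
        simp only [Set.ofPred_forall]
        exact isClosed_iInter fun i => isClosed_iInter fun j =>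
          isClosed_eq (by fun_prop) (by fun_prop)
    · rintro ⟨e, w⟩ hp
      obtain ⟨y, rfl⟩ : e ∈ range f := hp.1
      exact ⟨hp.1, mem_closedBall_zero_iff.mpr ((bd y w hp).trans ((G (a 0)).norm_coe_le_norm y))⟩
  have z0 : ∀ w, (f y₀, w) ∈ C → w = 0 := by
    intro w hw
    have := bd y₀ w hw
    rwa [(hR _).mp ⟨a 0, rfl⟩, norm_zero, norm_le_zero_iff] at this
  obtain ⟨g, hg⟩ := lift_findim hF hC hf
    (fun y => by
      obtain ⟨b, hb1, hb2⟩ := h (fun l => G (a l) y) ((isPos_complex _).mpr (ha' y)) K hK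
      refine ⟨fun i j => b (i.1 - j.1), mem_range_self y, (isPos_complex _).mp hb2,
        fun i j i' j' e => by simp only [e], fun i j => hb1 _ i.2 _ j.2⟩)
    (fun y s hs t ht α β hα hβ hαβ => by
      refine ⟨mem_range_self y, (hs.2.1.smul hα).add (ht.2.1.smul hβ), fun i j i' j' e => ?_,
        fun i j => ?_⟩
      · have h1 := hs.2.2.1 i j i' j' e
        have h2 := ht.2.2.1 i j i' j' e
        simp only at h1 h2
        simp [h1, h2]
      · have h1 := hs.2.2.2 i j
        have h2 := ht.2.2.2 i j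
        simp only at h1 h2
        simp only [Pi.add_apply, Pi.smul_apply, h1, h2]
        rw [← add_smul, hαβ, one_smul])
    (fun s t hs ht => by rw [z0 s hs, z0 t ht])
  have h1 : ∀ i j : K, ∃ z, G z = ⟨fun y => g y i j, by fun_prop⟩ := fun i j =>
    (hR _).mpr (by simp [z0 _ (hg y₀)])
  choose z hz using h1
  let b : ℤ × ℤ → A := fun l =>
    if hl : ∃ p : K × K, p.1.1 - p.2.1 = l then z hl.choose.1 hl.choose.2 else 0
  have hb : ∀ (i j : K) y, G (b (i.1 - j.1)) y = g y i j := by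
    intro i j y
    have hl : ∃ p : K × K, p.1.1 - p.2.1 = i.1 - j.1 := ⟨(i, j), rfl⟩
    simp only [b, dif_pos hl, hz, ContinuousMap.coe_mk]
    exact (hg y).2.2.1 _ _ _ _ hl.choose_spec
  refine ⟨b, fun i hi j hj => hG ?_, (isPos_iff_pointwise hG hR _).mpr fun y => ?_⟩
  · ext y
    exact (hb ⟨i, hK hi⟩ ⟨j, hK hj⟩ y).trans ((hg y).2.2.2 ⟨i, hi⟩ ⟨j, hj⟩)
  · have e : ((toeplitz b K).map fun a => G a y) = Matrix.of (g y) := by
      ext i j
      exact hb i j y
    rw [e]
    exact (hg y).2.1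

lemma hasExt_complex_of [Nontrivial A] (hG : Function.Injective G)
    (hR : ∀ h : C(Y, ℂ), (∃ z, G z = h) ↔ h y₀ = 0) {Λ : Finset (ℤ × ℤ)}
    (h : HasExt A Λ) : HasExt ℂ Λ := by
  intro a ha K hK
  rw [isPos_complex] at ha
  obtain ⟨x, hx⟩ := exists_ne (0 : A)
  obtain ⟨y, hy⟩ : ∃ y, G x y ≠ 0 := by
    by_contra hcon
    push Not at hcon
    exact hx (hG (by ext y; simp [hcon]))
  have e : ∀ (c : ℂ) y, G (c • (star x * x)) y = (Complex.normSq (G x y) : ℝ) • c := by
    intro c y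
    simp [map_star, Complex.normSq_eq_conj_mul_self, mul_comm]
  obtain ⟨b, hb1, hb2⟩ := h (fun l => a l • (star x * x))
    ((isPos_iff_pointwise hG hR _).mpr fun y => by
      have : ((toeplitz (fun l => a l • (star x * x)) Λ).map fun a => G a y) =
          (Complex.normSq (G x y) : ℝ) • toeplitz a Λ := by
        ext i j
        exact e _ y
      rw [this]
      exact ha.smul (Complex.normSq_nonneg _)) K hK
  have hpos : 0 < Complex.normSq (G x y) := Complex.normSq_pos.mpr hy
  refine ⟨fun l => (Complex.normSq (G x y))⁻¹ • G (b l) y, fun i hi j hj => ?_,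
    (isPos_complex _).mpr ?_⟩
  · simp only [hb1 i hi j hj, e, smul_smul, inv_mul_cancel₀ hpos.ne', one_smul]
  · exact ((isPos_iff_pointwise hG hR _).mp hb2 y).smul (inv_nonneg.mpr hpos.le)

lemma exists_cozero [T2Space Y] {U : Set Y} (hU : IsOpen U) (hU' : IsSigmaCompact U) :
    ∃ f : C(Y, ℝ), {y | f y ≠ 0} = U ∧ ∀ y, f y ^ 2 < 1 := by
  have hg : IsGδ Uᶜ := by
    obtain ⟨K, hK, rfl⟩ := hU'
    rw [compl_iUnion]
    exact IsGδ.iInter_of_isOpen fun n => (hK n).isClosed.isOpen_compl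
  obtain ⟨f, h1, -, -, h2⟩ := exists_continuous_one_zero_of_isCompact_of_isGδ
    hU.isClosed_compl.isCompact hg isClosed_empty (disjoint_empty _)
  refine ⟨⟨fun y => (1 - f y) / 2, by fun_prop⟩, ?_, fun y => ?_⟩
  · ext y
    have : y ∈ Uᶜ ↔ f y = 1 := by rw [h1]; simp
    simp only [ContinuousMap.coe_mk, mem_ofPred_eq, ne_eq, div_eq_zero_iff, sub_eq_zero,
      OfNat.ofNat_ne_zero, or_false, eq_comm (a := (1 : ℝ)), ← this, mem_compl_iff, not_not]
  · have := h2 y
    simp only [ContinuousMap.coe_mk]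
    nlinarith [this.1, this.2]

lemma fAt_of_hasExt [T2Space Y] (hG : Function.Injective G)
    (hR : ∀ h : C(Y, ℂ), (∃ z, G z = h) ↔ h y₀ = 0) (hA : HasExt A tri) : FAt y₀ := by
  intro U V hU hV hU' hV' _ _ hUV p hp
  by_contra hne
  obtain ⟨f, rfl, hf⟩ := exists_cozero hU hU'
  obtain ⟨g, rfl, hg⟩ := exists_cozero hV hV'
  obtain ⟨u, hu0, hu1, -⟩ := exists_continuous_zero_one_of_isClosed (isClosed_singleton (x := y₀))
    (isClosed_singleton (x := p)) (disjoint_singleton_right.mpr hne)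
  obtain ⟨x, hx⟩ := (hR ⟨fun y => u y, by fun_prop⟩).mpr (by simpa using hu0 rfl)
  have := vanish_of_hasExt G hG
    (fun x h => (hR _).mpr (by simp [(hR _).mp ⟨x, rfl⟩])) hA f g
    (fun y => by
      by_contra h
      exact disjoint_left.mp hUV (left_ne_zero_of_mul h) (right_ne_zero_of_mul h))
    hf hg x p hp.1 hp.2
  have h1 : u p = 1 := hu1 rfl
  simp [hx, h1] at this

omit [CompactSpace Y] in
lemma fAt_iff {X : Type*} [TopologicalSpace X] {ι : X → Y} (hι : Topology.IsOpenEmbedding ι)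
    (hr : range ι = {y₀}ᶜ) : FAt y₀ ↔ ∀ U V : Set X, IsOpen U → IsOpen V → IsSigmaCompact U →
      IsSigmaCompact V → Disjoint U V → Disjoint (closure U) (closure V) := by
  have hne : ∀ x, ι x ≠ y₀ := fun x => by
    have : ι x ∈ ({y₀}ᶜ : Set Y) := hr ▸ mem_range_self x
    exact this
  constructor
  · intro h U V hU hV hU' hV' hUV
    refine disjoint_left.mpr fun p h1 h2 => hne p ?_
    exact h _ _ (hι.isOpenMap U hU) (hι.isOpenMap V hV) (hU'.image hι.continuous)
      (hV'.image hι.continuous) (fun ⟨x, _, hx⟩ => hne x hx) (fun ⟨x, _, hx⟩ => hne x hx)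
      (disjoint_image_of_injective hι.injective hUV)
      ⟨image_closure_subset_closure_image hι.continuous (mem_image_of_mem ι h1),
        image_closure_subset_closure_image hι.continuous (mem_image_of_mem ι h2)⟩
  · intro h U V hU hV hU' hV' h1 h2 hUV p hp
    by_contra hp'
    obtain ⟨q, rfl⟩ : p ∈ range ι := hr ▸ hp'
    have sc : ∀ W : Set Y, y₀ ∉ W → IsSigmaCompact W → IsSigmaCompact (ι ⁻¹' W) := by
      intro W h1 h2
      rwa [hι.isEmbedding.isSigmaCompact_iff, image_preimage_eq_of_subset]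
      rw [hr]
      exact subset_compl_singleton_iff.mpr h1
    exact disjoint_left.mp (h _ _ (hU.preimage hι.continuous) (hV.preimage hι.continuous)
      (sc U h1 hU') (sc V h2 hV') (hUV.preimage ι))
      (hι.isOpenMap.preimage_closure_subset_closure_preimage hp.1)
      (hι.isOpenMap.preimage_closure_subset_closure_preimage hp.2)

end Pool.Agent.P.MP_76760e_an
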