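import Pool.Agent.P.MP_76760e_an.Comm
import Pool.Agent.P.MP_76760e_an.Ideal

/-!
The classification of planar-admissible algebras.
-/

open scoped ComplexOrder Matrix CStarAlgebra
open Set WeakDual

namespace Pool.Agent.P.MP_76760e_an

lemma exists_model (A : Type*) [NonUnitalCommCStarAlgebra A] :
    ∃ (y₀ : characterSpace ℂ A⁺¹) (G : A →⋆ₙₐ[ℂ] C(characterSpace ℂ A⁺¹, ℂ))
      (ι : characterSpace ℂ A → characterSpace ℂ A⁺¹), Function.Injective G ∧
      (∀ h, (∃ z, G z = h) ↔ h y₀ = 0) ∧ Topology.IsOpenEmbedding ι ∧ range ι = {y₀}ᶜ := by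
  let y₀ : characterSpace ℂ A⁺¹ := CharacterSpace.equivAlgHom.symm (Unitization.fstHom ℂ A)
  let G : A →⋆ₙₐ[ℂ] C(characterSpace ℂ A⁺¹, ℂ) :=
    (gelfandStarTransform A⁺¹ : A⁺¹ →⋆ₙₐ[ℂ] C(characterSpace ℂ A⁺¹, ℂ)).comp
      (Unitization.inrNonUnitalStarAlgHom ℂ A)
  let ι : characterSpace ℂ A → characterSpace ℂ A⁺¹ := fun φ =>
    CharacterSpace.equivAlgHom.symm (Unitization.lift (CharacterSpace.toNonUnitalAlgHom φ))
  have hy : ∀ x : A⁺¹, y₀ x = x.fst := fun x => rfl
  have hι : ∀ φ (x : A⁺¹), ι φ x = x.fst + φ x.snd := fun φ x => rfl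
  have hG : ∀ a ψ, G a ψ = ψ (a : A⁺¹) := fun a ψ => rfl
  have hdec : ∀ (ψ : characterSpace ℂ A⁺¹) (x : A⁺¹), ψ x = x.fst + ψ (x.snd : A⁺¹) := by
    intro ψ x
    conv_lhs => rw [← Unitization.inl_fst_add_inr_snd_eq x]
    rw [map_add, ← Unitization.algebraMap_eq_inl, AlgHomClass.commutes]
    simp
  have hr : range ι = {y₀}ᶜ := by
    ext ψ
    constructor
    · rintro ⟨φ, rfl⟩ h
      apply φ.2.1
      refine DFunLike.ext _ _ fun a => ?_
      have := congrArg (fun ψ : characterSpace ℂ A⁺¹ => ψ (a : A⁺¹)) (mem_singleton_iff.mp h)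
      change φ a = 0
      simpa [hι, hy] using this
    · intro h
      refine ⟨⟨(CharacterSpace.toCLM ψ).comp (Unitization.inrHom ℂ ℂ A |>.mkContinuous 1
        (by simp [Unitization.norm_inr])), ?_, fun a b => ?_⟩, ?_⟩
      · intro h0
        apply h
        ext x
        have : ψ (x.snd : A⁺¹) = 0 := congrArg (fun φ : WeakDual ℂ A => φ x.snd) h0
        rw [hdec, this, hy, add_zero]
      · change ψ ((a * b : A) : A⁺¹) = ψ (a : A⁺¹) * ψ (b : A⁺¹)
        rw [Unitization.inr_mul, map_mul]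
      · ext x
        rw [hι, hdec ψ x]
        rfl
  have hc : Continuous ι := by
    refine Continuous.subtype_mk (WeakDual.continuous_of_continuous_eval fun x => ?_) _
    change Continuous fun φ => ι φ x
    simp only [hι]
    exact continuous_const.add ((WeakDual.eval_continuous x.snd).comp continuous_subtype_val)
  have hev : Continuous fun (ψ : characterSpace ℂ A⁺¹) (a : A) => ψ (a : A⁺¹) :=
    continuous_pi fun a => (WeakDual.eval_continuous (a : A⁺¹)).comp continuous_subtype_val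
  have hcomp : ((fun (ψ : characterSpace ℂ A⁺¹) (a : A) => ψ (a : A⁺¹)) ∘ ι) =
      (fun (φ : WeakDual ℂ A) (a : A) => φ a) ∘ Subtype.val := by
    ext φ a
    simp [hι]
  have hind : Topology.IsInducing (fun (φ : WeakDual ℂ A) (a : A) => φ a) := ⟨rfl⟩
  refine ⟨y₀, G, ι, ?_, ?_, ⟨⟨Topology.IsInducing.of_comp hc hev ?_, ?_⟩, ?_⟩, hr⟩
  · exact (gelfandStarTransform A⁺¹).injective.comp Unitization.inr_injective
  · intro h
    constructor
    · rintro ⟨z, rfl⟩
      simp [hG, hy]
    · intro h0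
      obtain ⟨w, rfl⟩ := (gelfandStarTransform A⁺¹).surjective h
      have hw : w.fst = 0 := h0
      refine ⟨w.snd, ?_⟩
      ext ψ
      rw [hG]
      change _ = ψ w
      rw [hdec ψ w, hw, zero_add]
  · rw [hcomp]
    exact hind.comp Topology.IsInducing.subtypeVal
  · intro φ φ' h
    ext a
    simpa [hι] using congrArg (fun ψ : characterSpace ℂ A⁺¹ => ψ (a : A⁺¹)) h
  · rw [hr]
    exact isOpen_compl_singleton

/-- A set without the scalar extension property. -/
lemma not_hasExt_gap : ¬ HasExt ℂ {(0, 0), (1, 0), (3, 0)} := by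
  intro h
  let Λ : Finset (ℤ × ℤ) := {(0, 0), (1, 0), (3, 0)}
  let a : ℤ × ℤ → ℂ := fun l => if l = (0, 0) ∨ l = (1, 0) ∨ l = (-1, 0) then 1 else 0
  let u : Λ → ℂ := fun k => if k.1 = (3, 0) then 0 else 1
  let v : Λ → ℂ := fun k => if k.1 = (3, 0) then 1 else 0
  have e : toeplitz a Λ = (Matrix.of fun i j => star (u i) * u j)
      + Matrix.of fun i j => star (v i) * v j := by
    ext ⟨i, hi⟩ ⟨j, hj⟩
    simp only [Λ, Finset.mem_insert, Finset.mem_singleton] at hi hj
    rcases hi with rfl | rfl | rfl <;> rcases hj with rfl | rfl | rfl <;>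
      simp [toeplitz, a, u, v, Prod.ext_iff]
  obtain ⟨b, hb, hpos⟩ := h a (e ▸ (isPos_rankOne u).add (isPos_rankOne v))
    {(0, 0), (1, 0), (2, 0), (3, 0)} (by decide)
  have b0 : b 0 = 1 := by simpa [a, Prod.ext_iff] using hb (0, 0) (by decide) (0, 0) (by decide)
  have b1 : b (1, 0) = 1 := by simpa [a] using hb (1, 0) (by decide) (0, 0) (by decide)
  have b2 : b (-1, 0) = 1 := by simpa [a] using hb (0, 0) (by decide) (1, 0) (by decide)
  have b3 : b (2, 0) = 0 := by simpa [a] using hb (3, 0) (by decide) (1, 0) (by decide)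
  have b4 : b (-2, 0) = 0 := by simpa [a] using hb (1, 0) (by decide) (3, 0) (by decide)
  have := (((isPos_complex _).mp hpos).submatrix
    ![⟨(0, 0), by decide⟩, ⟨(1, 0), by decide⟩, ⟨(2, 0), by decide⟩]).det_nonneg
  rw [Matrix.det_fin_three] at this
  simp [toeplitz, b0, b1, b2, b3, b4] at this
  exact absurd this (by norm_num)

theorem classification_comm (A : Type*) [NonUnitalCommCStarAlgebra A] [Nontrivial A] :
    PlanarAdmissible A ↔ ∀ U V : Set (characterSpace ℂ A), IsOpen U → IsOpen V →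
      IsSigmaCompact U → IsSigmaCompact V → Disjoint U V → Disjoint (closure U) (closure V) := by
  obtain ⟨y₀, G, ι, hG, hR, hι, hr⟩ := exists_model A
  rw [← fAt_iff hι hr]
  exact ⟨fun h => fAt_of_hasExt hG hR ((h tri).mp hasExt_complex_tri),
    fun h Λ => ⟨hasExt_of_fAt hG hR h, hasExt_complex_of hG hR⟩⟩

theorem classification (A : Type*) [inst : NonUnitalCStarAlgebra A] :
    PlanarAdmissible A ↔ Nontrivial A ∧ (∀ x y : A, x * y = y * x) ∧
      ∀ U V : Set (characterSpace ℂ A), IsOpen U → IsOpen V →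
        IsSigmaCompact U → IsSigmaCompact V → Disjoint U V → Disjoint (closure U) (closure V) := by
  constructor
  · intro h
    have h1 : Nontrivial A := by
      by_contra hn
      have : Subsingleton A := not_nontrivial_iff_subsingleton.mp hn
      exact not_hasExt_gap ((h _).mpr fun a _ K _ =>
        ⟨a, fun _ _ _ _ => rfl, (isPos_iff _).mpr ⟨0, Subsingleton.elim _ _⟩⟩)
    have h2 := comm_of_hasExt ((h tri).mp hasExt_complex_tri)
    let _ : NonUnitalCommCStarAlgebra A := { inst with mul_comm := h2 }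
    exact ⟨h1, h2, (classification_comm A).mp h⟩
  · rintro ⟨h1, h2, h3⟩
    let _ : NonUnitalCommCStarAlgebra A := { inst with mul_comm := h2 }
    exact (classification_comm A).mpr h3

end Pool.Agent.P.MP_76760e_an
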