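import Pool.Agent.P.MP_76760e_an.Triangle

/-!
Consequences of the extension property of the three point set.
-/

open scoped ComplexOrder MatrixOrder Matrix ComplexConjugate

namespace Pool.Agent.P.MP_76760e_an

section general

variable {A : Type*} [NonUnitalCStarAlgebra A]

lemma IsPos.add {n : Type} [Fintype n] {M N : Matrix n n A} (hM : IsPos M) (hN : IsPos N) :
    IsPos (M + N) := by
  let _ := CStarAlgebra.spectralOrder A
  have _ := CStarAlgebra.spectralOrderedRing A
  exact add_nonneg (α := CStarMatrix n n A) hM hN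

lemma isPos_rankOne {n : Type} [Fintype n] (u : n → A) :
    IsPos (Matrix.of fun i j => star (u i) * u j) := by
  classical
  rw [isPos_iff]
  rcases isEmpty_or_nonempty n with hn | ⟨⟨i0⟩⟩
  · exact ⟨0, Subsingleton.elim _ _⟩
  · refine ⟨Matrix.of fun k j => if k = i0 then u j else 0, ?_⟩
    ext i j
    simp [Matrix.mul_apply, apply_ite star, ite_mul]

lemma exists_ext_tri (h : HasExt A tri) (u0 u1 u2 v0 v1 v2 : A)
    (h1 : star u1 * u1 + star v1 * v1 = star u0 * u0 + star v0 * v0)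
    (h2 : star u2 * u2 + star v2 * v2 = star u0 * u0 + star v0 * v0)
    (K : Finset (ℤ × ℤ)) (hK : tri ⊆ K) :
    ∃ b : ℤ × ℤ → A, IsPos (toeplitz b K) ∧ b (0, 0) = star u0 * u0 + star v0 * v0 ∧
      b (1, 0) = star u1 * u0 + star v1 * v0 ∧ b (0, 1) = star u2 * u0 + star v2 * v0 ∧
      b (1, -1) = star u1 * u2 + star v1 * v2 := by
  let a : ℤ × ℤ → A := fun l =>
    if l = (0, 0) then star u0 * u0 + star v0 * v0
    else if l = (1, 0) then star u1 * u0 + star v1 * v0
    else if l = (-1, 0) then star u0 * u1 + star v0 * v1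
    else if l = (0, 1) then star u2 * u0 + star v2 * v0
    else if l = (0, -1) then star u0 * u2 + star v0 * v2
    else if l = (1, -1) then star u1 * u2 + star v1 * v2
    else star u2 * u1 + star v2 * v1
  let u : tri → A := fun k => if k.1 = (0, 0) then u0 else if k.1 = (1, 0) then u1 else u2
  let v : tri → A := fun k => if k.1 = (0, 0) then v0 else if k.1 = (1, 0) then v1 else v2
  have e : toeplitz a tri = (Matrix.of fun i j => star (u i) * u j)
      + Matrix.of fun i j => star (v i) * v j := by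
    ext ⟨i, hi⟩ ⟨j, hj⟩
    simp only [tri, Finset.mem_insert, Finset.mem_singleton] at hi hj
    rcases hi with rfl | rfl | rfl <;> rcases hj with rfl | rfl | rfl <;>
      simp [toeplitz, a, u, v, h1, h2, Prod.ext_iff]
  obtain ⟨b, hb, hpos⟩ := h a (e ▸ (isPos_rankOne u).add (isPos_rankOne v)) K hK
  have m0 : ((0, 0) : ℤ × ℤ) ∈ tri := by decide
  have m1 : ((1, 0) : ℤ × ℤ) ∈ tri := by decide
  have m2 : ((0, 1) : ℤ × ℤ) ∈ tri := by decide
  refine ⟨b, hpos, ?_, ?_, ?_, ?_⟩
  · exact hb _ m0 _ m0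
  · exact hb _ m1 _ m0
  · exact hb _ m2 _ m0
  · exact hb _ m1 _ m2

end general

/-- The five point set on which the extension is forced. -/
def K5 : Finset (ℤ × ℤ) := {(0, 0), (1, 0), (0, 1), (1, 1), (2, 0)}

lemma rigid {b : ℤ × ℤ → ℂ} (hb : (toeplitz b K5).PosSemidef) {ρ α : ℝ} {β : ℂ}
    (hα : α ≠ 0) (hαβ : α ^ 2 + Complex.normSq β = 1) (e0 : b (0, 0) = ρ) (e1 : b (1, 0) = 0)
    (e2 : b (0, 1) = ρ * α) (e3 : b (1, -1) = ρ * β) : conj β * b (2, 0) = -(ρ * β) := by
  have m0 : ((0, 0) : ℤ × ℤ) ∈ K5 := by decide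
  have m1 : ((1, 0) : ℤ × ℤ) ∈ K5 := by decide
  have m2 : ((0, 1) : ℤ × ℤ) ∈ K5 := by decide
  have m3 : ((1, 1) : ℤ × ℤ) ∈ K5 := by decide
  have m4 : ((2, 0) : ℤ × ℤ) ∈ K5 := by decide
  have e0' : b 0 = ρ := e0
  have c1 : b (-1, 0) = 0 := by simpa [e1] using toeplitz_neg hb m1 m0
  have c2 : b (0, -1) = ρ * α := by simpa [e2] using toeplitz_neg hb m2 m0
  have c3 : b (-1, 1) = ρ * conj β := by simpa [e3] using toeplitz_neg hb m1 m2
  have c4 : b (-1, -1) = conj (b (1, 1)) := by simpa using toeplitz_neg hb m3 m0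
  have c5 : b (-2, 0) = conj (b (2, 0)) := by simpa using toeplitz_neg hb m4 m0
  have hαβ' : (α : ℂ) ^ 2 + β * conj β = 1 := by
    rw [Complex.mul_conj]; exact_mod_cast hαβ
  have hM := hb.submatrix ![⟨_, m0⟩, ⟨_, m1⟩, ⟨_, m2⟩, ⟨_, m3⟩, ⟨_, m4⟩]
  have r1 := congrFun ((hM.dotProduct_mulVec_zero_iff ![-α, -β, 1, 0, 0]).mp (by
    simp [toeplitz, dotProduct, Matrix.mulVec, Fin.sum_univ_five, e0', e1, e2, e3, c1, c2, c3]
    linear_combination (-ρ : ℂ) * hαβ')) 3
  have r2 := congrFun ((hM.dotProduct_mulVec_zero_iff ![0, -α, 0, 1, -β]).mp (by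
    simp [toeplitz, dotProduct, Matrix.mulVec, Fin.sum_univ_five, e0', e1, e2, e3, c1, c2, c3]
    linear_combination (-ρ : ℂ) * hαβ')) 0
  simp [toeplitz, dotProduct, Matrix.mulVec, Fin.sum_univ_five, e1, e2, c1, c4, c5] at r1 r2
  have r3 := congrArg conj r2
  simp at r3
  have hα' : (α : ℂ) ≠ 0 := by exact_mod_cast hα
  apply mul_left_cancel₀ hα'
  linear_combination -r1 - α * r3

/-- If the three point set has the `A`-extension property and `A` is an ideal of `C(Y)`, then the
elements of `A` vanish where the closures of two disjoint cozero sets meet. -/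
lemma vanish_of_hasExt {A : Type*} [NonUnitalCStarAlgebra A] {Y : Type*} [TopologicalSpace Y]
    [CompactSpace Y] (G : A →⋆ₙₐ[ℂ] C(Y, ℂ)) (hG : Function.Injective G)
    (hI : ∀ (x : A) (h : C(Y, ℂ)), ∃ z, G z = G x * h) (hA : HasExt A tri)
    (f g : C(Y, ℝ)) (hfg : ∀ y, f y * g y = 0) (hf : ∀ y, f y ^ 2 < 1) (hg : ∀ y, g y ^ 2 < 1)
    (x : A) (p : Y) (hp : p ∈ closure {y | f y ≠ 0}) (hp' : p ∈ closure {y | g y ≠ 0}) :
    G x p = 0 := by
  have hlt : ∀ y, 0 < 1 - f y ^ 2 - g y ^ 2 := by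
    intro y
    rcases mul_eq_zero.mp (hfg y) with h | h
    · have := hg y; rw [h]; linarith
    · have := hf y; rw [h]; linarith
  let α : Y → ℝ := fun y => √(1 - f y ^ 2 - g y ^ 2)
  let β : Y → ℂ := fun y => f y + g y * Complex.I
  have hαβ : ∀ y, α y ^ 2 + Complex.normSq (β y) = 1 := by
    intro y
    simp only [α, β, Complex.normSq_add_mul_I, Real.sq_sqrt (hlt y).le]
    ring
  have hα : ∀ y, α y ≠ 0 := fun y => (Real.sqrt_pos.mpr (hlt y)).ne'
  obtain ⟨z, hz⟩ := hI x ⟨fun y => α y, by fun_prop⟩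
  obtain ⟨w, hw⟩ := hI x ⟨β, by fun_prop⟩
  have hz' : ∀ y, G z y = G x y * α y := fun y => by rw [hz]; rfl
  have hw' : ∀ y, G w y = G x y * β y := fun y => by rw [hw]; rfl
  obtain ⟨b, hb, e0, e1, e2, e3⟩ := exists_ext_tri hA x 0 z 0 x w (by simp) (by
    apply hG
    ext y
    have h1 : ((α y : ℂ)) ^ 2 + β y * conj (β y) = 1 := by
      rw [Complex.mul_conj]; exact_mod_cast hαβ y
    simp [map_star, hz', hw']
    linear_combination (conj (G x y) * G x y) * h1) K5 (by decide)
  have hb' := (isPos_continuousMap _).mp (hb.map G)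
  have key : ∀ y, conj (β y) * G (b (2, 0)) y = -(Complex.normSq (G x y) * β y) := by
    intro y
    refine rigid (b := fun l => G (b l) y) (hb' y) (hα y) (hαβ y) ?_ ?_ ?_ ?_
    · simp [e0, map_star, Complex.normSq_eq_conj_mul_self]
    · simp [e1]
    · simp [e2, map_star, Complex.normSq_eq_conj_mul_self, hz']; ring
    · simp [e3, map_star, Complex.normSq_eq_conj_mul_self, hw']; ring
  have k1 : G (b (2, 0)) p = -(Complex.normSq (G x p) : ℂ) := by
    refine closure_minimal (t := {y | G (b (2, 0)) y = -(Complex.normSq (G x y) : ℂ)}) ?_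
      (isClosed_eq (by fun_prop) (by fun_prop)) hp
    intro y hy
    have h0 : g y = 0 := (mul_eq_zero.mp (hfg y)).resolve_left hy
    have h1 : (f y : ℂ) ≠ 0 := by exact_mod_cast hy
    have := key y
    simp only [β, h0, Complex.ofReal_zero, zero_mul, add_zero, Complex.conj_ofReal] at this
    apply mul_left_cancel₀ h1
    linear_combination this
  have k2 : G (b (2, 0)) p = (Complex.normSq (G x p) : ℂ) := by
    refine closure_minimal (t := {y | G (b (2, 0)) y = (Complex.normSq (G x y) : ℂ)}) ?_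
      (isClosed_eq (by fun_prop) (by fun_prop)) hp'
    intro y hy
    have h0 : f y = 0 := (mul_eq_zero.mp (hfg y)).resolve_right hy
    have h1 : (g y : ℂ) * Complex.I ≠ 0 := mul_ne_zero (by exact_mod_cast hy) Complex.I_ne_zero
    have := key y
    simp only [β, h0, Complex.ofReal_zero, zero_add, map_mul, Complex.conj_ofReal,
      Complex.conj_I] at this
    apply mul_left_cancel₀ h1
    linear_combination -this
  have : (Complex.normSq (G x p) : ℂ) = 0 := by linear_combination (k1 - k2) / 2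
  exact Complex.normSq_eq_zero.mp (by exact_mod_cast this)

/-- The three point set does not have the `C([-1, 1])`-extension property. -/
theorem not_hasExt_interval : ¬ HasExt C(Set.Icc (-1 : ℝ) 1, ℂ) tri := by
  intro h
  have key := vanish_of_hasExt (Y := Set.Icc (-1 : ℝ) 1) (NonUnitalStarAlgHom.id ℂ _)
    Function.injective_id (fun x h => ⟨x * h, rfl⟩) h
    ⟨fun y => max y.1 0 / 2, by fun_prop⟩ ⟨fun y => min y.1 0 / 2, by fun_prop⟩ ?_ ?_ ?_ 1
    ⟨0, by norm_num⟩ ?_ ?_
  · simp at key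
  · intro y
    rcases le_total y.1 0 with h | h <;> simp [h]
  · intro y
    have := y.2.2
    rcases le_total y.1 0 with h | h <;> simp [h]
    exact abs_lt.mpr ⟨by linarith, by linarith⟩
  · intro y
    have := y.2.1
    rcases le_total y.1 0 with h | h <;> simp [h]
    exact abs_lt.mpr ⟨by linarith, by linarith⟩
  · rw [Metric.mem_closure_iff]
    intro ε hε
    have h1 : 0 < min (ε / 2) 1 := by positivity
    refine ⟨⟨min (ε / 2) 1, by linarith, min_le_right _ _⟩, ?_, ?_⟩
    · simp only [ContinuousMap.coe_mk, Set.mem_ofPred_eq, max_eq_left h1.le]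
      positivity
    · rw [Subtype.dist_eq, Real.dist_eq, zero_sub, abs_neg, abs_of_pos h1]
      linarith [min_le_left (ε / 2) 1]
  · rw [Metric.mem_closure_iff]
    intro ε hε
    have h1 : 0 < min (ε / 2) 1 := by positivity
    refine ⟨⟨-min (ε / 2) 1, neg_le_neg (min_le_right _ _), by linarith⟩, ?_, ?_⟩
    · simp only [ContinuousMap.coe_mk, Set.mem_ofPred_eq, min_eq_left (neg_nonpos.mpr h1.le)]
      linarith
    · rw [Subtype.dist_eq, Real.dist_eq, zero_sub, neg_neg, abs_of_pos h1]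
      linarith [min_le_left (ε / 2) 1]

end Pool.Agent.P.MP_76760e_an
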