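import Pool.Agent.P.MP_76760e_an.Basic

/-!
The three point set `{(0,0), (1,0), (0,1)}` has the scalar extension property.
-/

open scoped ComplexOrder MatrixOrder Matrix ComplexConjugate

namespace Pool.Agent.P.MP_76760e_an

lemma normSq_le_of_posSemidef {n : Type} [Fintype n] {M : Matrix n n ℂ} (h : M.PosSemidef)
    (i j : n) : Complex.normSq (M i j) ≤ (M i i).re * (M j j).re := by
  have h2 := (h.submatrix ![i, j]).det_nonneg
  have hji : M j i = conj (M i j) := by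
    have := congrFun (congrFun h.1 j) i
    simpa using this.symm
  have hi : (M i i).im = 0 := (Complex.nonneg_iff.mp (h.diag_nonneg (i := i))).2.symm
  rw [Matrix.det_fin_two] at h2
  have := (Complex.nonneg_iff.mp h2).1
  simp [hji, hi] at this
  rw [Complex.normSq_apply]
  linarith

/-- Positive definite functions on `ℤ × ℤ`. -/
def PD (b : ℤ × ℤ → ℂ) : Prop := ∀ K : Finset (ℤ × ℤ), (toeplitz b K).PosSemidef

lemma pd_char {z w : ℂ} (hz : ‖z‖ = 1) (hw : ‖w‖ = 1) : PD fun l => z ^ l.1 * w ^ l.2 := by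
  intro K
  have hz0 : z ≠ 0 := by rintro rfl; simp at hz
  have hw0 : w ≠ 0 := by rintro rfl; simp at hw
  have : toeplitz (fun l : ℤ × ℤ => z ^ l.1 * w ^ l.2) K =
      Matrix.vecMulVec (fun i : K => z ^ i.1.1 * w ^ i.1.2)
        (star fun i : K => z ^ i.1.1 * w ^ i.1.2) := by
    ext i j
    simp only [toeplitz, Matrix.of_apply, Matrix.vecMulVec_apply, Pi.star_apply, Prod.fst_sub,
      Prod.snd_sub, zpow_sub₀ hz0, zpow_sub₀ hw0, Complex.star_def, map_mul, map_zpow₀,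
      ← Complex.inv_eq_conj hz, ← Complex.inv_eq_conj hw, inv_zpow]
    field_simp
  rw [this]
  exact Matrix.posSemidef_vecMulVec_self_star _

/-- The four numbers are values of a positive definite function. -/
def Mom (r α β γ : ℂ) : Prop :=
  ∃ b, PD b ∧ b (0, 0) = r ∧ b (1, 0) = α ∧ b (0, 1) = β ∧ b (1, -1) = γ

lemma Mom.add {r α β γ r' α' β' γ' : ℂ} (h : Mom r α β γ) (h' : Mom r' α' β' γ') :
    Mom (r + r') (α + α') (β + β') (γ + γ') := by
  obtain ⟨b, hb, rfl, rfl, rfl, rfl⟩ := h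
  obtain ⟨b', hb', rfl, rfl, rfl, rfl⟩ := h'
  exact ⟨b + b', fun K => (hb K).add (hb' K), rfl, rfl, rfl, rfl⟩

lemma Mom.smul {r α β γ : ℂ} (h : Mom r α β γ) {t : ℝ} (ht : 0 ≤ t) :
    Mom (t * r) (t * α) (t * β) (t * γ) := by
  obtain ⟨b, hb, rfl, rfl, rfl, rfl⟩ := h
  exact ⟨(t : ℂ) • b, fun K => (hb K).smul (a := (t : ℂ)) (by exact_mod_cast ht),
    rfl, rfl, rfl, rfl⟩

lemma mom_char {z w : ℂ} (hz : ‖z‖ = 1) (hw : ‖w‖ = 1) : Mom 1 z w (z * conj w) :=
  ⟨_, pd_char hz hw, by simp, by simp, by simp, by simp [Complex.inv_eq_conj hw]⟩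

lemma ray {β d : ℂ} (hβ : ‖β‖ ≤ 1) (hd : d ≠ 0) : ∃ s : ℝ, 0 ≤ s ∧ ‖β + s * d‖ = 1 := by
  have hd' : 0 < ‖d‖ := norm_pos_iff.mpr hd
  have hc : ContinuousOn (fun s : ℝ => ‖β + s * d‖) (Set.Icc 0 (2 / ‖d‖)) := by fun_prop
  have h1 : (1 : ℝ) ∈ Set.Icc ‖β + ((0 : ℝ) : ℂ) * d‖ ‖β + ((2 / ‖d‖ : ℝ) : ℂ) * d‖ := by
    constructor
    · simpa using hβ
    · have h2 : ‖((2 / ‖d‖ : ℝ) : ℂ) * d‖ = 2 := by
        rw [norm_mul, Complex.norm_real, Real.norm_of_nonneg (by positivity)]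
        field_simp
      have h3 := norm_sub_le (β + ((2 / ‖d‖ : ℝ) : ℂ) * d) β
      rw [add_sub_cancel_left, h2] at h3
      linarith
  obtain ⟨s, hs, e⟩ := intermediate_value_Icc (by positivity) hc h1
  exact ⟨s, hs.1, e⟩

lemma chord {β d : ℂ} (hβ : ‖β‖ ≤ 1) (hd : d ≠ 0) : ∃ (s1 s2 t : ℝ), 0 ≤ t ∧ t ≤ 1 ∧
    ‖β + s1 * d‖ = 1 ∧ ‖β + s2 * d‖ = 1 ∧ t * s1 + (1 - t) * s2 = 0 := by
  obtain ⟨s1, h1, e1⟩ := ray hβ hd
  obtain ⟨s2, h2, e2⟩ := ray hβ (neg_ne_zero.mpr hd)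
  by_cases h : s1 + s2 = 0
  · exact ⟨s1, s1, 1, zero_le_one, le_rfl, e1, e1, by linarith⟩
  · have hpos : 0 < s1 + s2 := lt_of_le_of_ne (by linarith) (Ne.symm h)
    refine ⟨s1, -s2, s2 / (s1 + s2), by positivity, ?_, e1, by simpa using e2, ?_⟩
    · rw [div_le_one hpos]; linarith
    · field_simp; ring

lemma mom_point {t : ℝ} {η w : ℂ} (hη : ‖η‖ ≤ t) (hw : ‖w‖ = 1) : Mom t η (t * w) (η * conj w) := by
  have ht : 0 ≤ t := (norm_nonneg _).trans hη
  obtain ⟨ζ, hζ, rfl⟩ : ∃ ζ : ℂ, ‖ζ‖ ≤ 1 ∧ η = t * ζ := by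
    rcases ht.eq_or_lt with rfl | ht
    · exact ⟨0, by simp, by simpa using hη⟩
    · refine ⟨η / t, ?_, ?_⟩
      · rwa [norm_div, Complex.norm_real, Real.norm_of_nonneg ht.le, div_le_one ht]
      · have : (t : ℂ) ≠ 0 := by exact_mod_cast ht.ne'
        field_simp
  obtain ⟨s1, s2, u, hu0, hu1, e1, e2, e⟩ := chord hζ one_ne_zero
  have e' : (u : ℂ) * s1 + (1 - u) * s2 = 0 := by exact_mod_cast e
  have := (((mom_char e1 hw).smul hu0).add ((mom_char e2 hw).smul (sub_nonneg.mpr hu1))).smul ht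
  convert this using 1
  · push_cast; ring
  · push_cast; linear_combination (-t : ℂ) * e'
  · push_cast; ring
  · push_cast; linear_combination (-t * conj w : ℂ) * e'

lemma mom_one {α β γ : ℂ} (hα : ‖α‖ ≤ 1) (hβ : ‖β‖ ≤ 1)
    (hdet : 0 ≤ 1 - Complex.normSq α - Complex.normSq β - Complex.normSq γ
      + 2 * (α * conj β * conj γ).re) : Mom 1 α β γ := by
  obtain ⟨d, hd, hcd⟩ : ∃ d : ℂ, d ≠ 0 ∧ ((β - α * conj γ) * conj d).re = 0 := by
    by_cases hc : β - α * conj γ = 0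
    · exact ⟨1, one_ne_zero, by simp [hc]⟩
    · refine ⟨Complex.I * (β - α * conj γ), mul_ne_zero Complex.I_ne_zero hc, ?_⟩
      generalize β - α * conj γ = c
      simp
      ring
  have key : ∀ s : ℝ, ‖β + s * d‖ = 1 → ‖γ - α * conj (β + s * d)‖ ≤ ‖(s : ℂ) * d‖ := by
    intro s hs
    have h1 : Complex.normSq (β + s * d) = 1 := by rw [Complex.normSq_eq_norm_sq, hs]; norm_num
    rw [← sq_le_sq₀ (norm_nonneg _) (norm_nonneg _), ← Complex.normSq_eq_norm_sq,
      ← Complex.normSq_eq_norm_sq]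
    have h2 : Complex.normSq ((s : ℂ) * d) - Complex.normSq (γ - α * conj (β + s * d)) =
        1 - Complex.normSq α - Complex.normSq β - Complex.normSq γ
          + 2 * (α * conj β * conj γ).re := by
      simp [Complex.normSq_apply] at h1 hcd ⊢
      linear_combination (1 - α.re ^ 2 - α.im ^ 2) * h1 - 2 * s * hcd
    linarith
  obtain ⟨s1, s2, t, ht0, ht1, e1, e2, e⟩ := chord hβ hd
  have e' : (t : ℂ) * s1 + (1 - t) * s2 = 0 := by exact_mod_cast e
  by_cases hs : s1 = s2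
  · subst hs
    have hs0 : s1 = 0 := by linarith
    subst hs0
    have k := key 0 e1
    simp only [Complex.ofReal_zero, zero_mul, add_zero, norm_zero, norm_le_zero_iff] at k e1
    have := mom_point (t := 1) hα e1
    rw [sub_eq_zero.mp k]
    simpa using this
  · have hD : (s1 - s2 : ℂ) * conj d ≠ 0 := by
      refine mul_ne_zero ?_ (by simpa using hd)
      exact_mod_cast sub_ne_zero.mpr hs
    have hDn : ‖(s1 - s2 : ℂ) * conj d‖ = |s1 - s2| * ‖d‖ := by
      rw [norm_mul, Complex.norm_conj, ← Complex.ofReal_sub, Complex.norm_real, Real.norm_eq_abs]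
    have hDp : 0 < |s1 - s2| * ‖d‖ := hDn ▸ norm_pos_iff.mpr hD
    have n1 : ‖(γ - α * conj (β + s2 * d)) / ((s1 - s2 : ℂ) * conj d)‖ ≤ t := by
      rw [norm_div, hDn, div_le_iff₀ hDp]
      refine (key s2 e2).trans (le_of_eq ?_)
      have : s2 = -(t * (s1 - s2)) := by linarith
      rw [norm_mul, Complex.norm_real, Real.norm_eq_abs]
      nth_rewrite 1 [this]
      rw [abs_neg, abs_mul, abs_of_nonneg ht0]
      ring
    have n2 : ‖-(γ - α * conj (β + s1 * d)) / ((s1 - s2 : ℂ) * conj d)‖ ≤ 1 - t := by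
      rw [norm_div, hDn, div_le_iff₀ hDp, norm_neg]
      refine (key s1 e1).trans (le_of_eq ?_)
      have : s1 = (1 - t) * (s1 - s2) := by linarith
      rw [norm_mul, Complex.norm_real, Real.norm_eq_abs]
      nth_rewrite 1 [this]
      rw [abs_mul, abs_of_nonneg (sub_nonneg.mpr ht1)]
      ring
    have := (mom_point n1 e1).add (mom_point n2 e2)
    convert this using 1
    · push_cast; ring
    · simp only [map_add, map_mul, Complex.conj_ofReal]
      rw [← add_div, eq_div_iff hD]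
      ring
    · push_cast; linear_combination (-d) * e'
    · simp only [map_add, map_mul, Complex.conj_ofReal]
      rw [div_mul_eq_mul_div, div_mul_eq_mul_div, ← add_div, eq_div_iff hD]
      ring

/-- The three point set. -/
def tri : Finset (ℤ × ℤ) := {(0, 0), (1, 0), (0, 1)}

lemma toeplitz_neg {b : ℤ × ℤ → ℂ} {K : Finset (ℤ × ℤ)} (h : (toeplitz b K).PosSemidef)
    {i j : ℤ × ℤ} (hi : i ∈ K) (hj : j ∈ K) : b (j - i) = conj (b (i - j)) := by
  have := congrFun (congrFun h.1 ⟨j, hj⟩) ⟨i, hi⟩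
  simpa [toeplitz] using this.symm

theorem hasExt_complex_tri : HasExt ℂ tri := by
  intro a ha K _
  rw [isPos_complex] at ha
  have m0 : ((0, 0) : ℤ × ℤ) ∈ tri := by decide
  have m1 : ((1, 0) : ℤ × ℤ) ∈ tri := by decide
  have m2 : ((0, 1) : ℤ × ℤ) ∈ tri := by decide
  have c1 : a (-1, 0) = conj (a (1, 0)) := by simpa using toeplitz_neg ha m1 m0
  have c2 : a (0, -1) = conj (a (0, 1)) := by simpa using toeplitz_neg ha m2 m0
  have c3 : a (-1, 1) = conj (a (1, -1)) := by simpa using toeplitz_neg ha m1 m2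
  have h0 : 0 ≤ a (0, 0) := ha.diag_nonneg (i := ⟨_, m0⟩)
  obtain ⟨r, hr0, hr⟩ : ∃ r : ℝ, 0 ≤ r ∧ a (0, 0) = r :=
    ⟨(a (0, 0)).re, (Complex.nonneg_iff.mp h0).1,
      Complex.ext rfl (by simpa using (Complex.nonneg_iff.mp h0).2.symm)⟩
  have hr' : a 0 = r := hr
  have bd : ∀ i j (_ : i ∈ tri) (_ : j ∈ tri), ‖a (i - j)‖ ≤ r := by
    intro i j hi hj
    have := normSq_le_of_posSemidef ha ⟨i, hi⟩ ⟨j, hj⟩
    simp only [toeplitz, Matrix.of_apply, sub_self, hr', Complex.ofReal_re] at this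
    rw [Complex.normSq_eq_norm_sq] at this
    exact (sq_le_sq₀ (norm_nonneg _) hr0).mp (by linarith)
  have b1 : ‖a (1, 0)‖ ≤ r := by simpa using bd _ _ m1 m0
  have b2 : ‖a (0, 1)‖ ≤ r := by simpa using bd _ _ m2 m0
  have b3 : ‖a (1, -1)‖ ≤ r := by simpa using bd _ _ m1 m2
  have hdet : 0 ≤ r ^ 3 - r * Complex.normSq (a (1, 0)) - r * Complex.normSq (a (0, 1))
      - r * Complex.normSq (a (1, -1)) + 2 * (a (1, 0) * conj (a (0, 1)) * conj (a (1, -1))).re := by
    have h2 := (ha.submatrix ![⟨_, m0⟩, ⟨_, m1⟩, ⟨_, m2⟩]).det_nonneg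
    rw [Matrix.det_fin_three] at h2
    have := (Complex.nonneg_iff.mp h2).1
    simp [toeplitz, c1, c2, c3, hr'] at this
    simp [Complex.normSq_apply]
    linarith
  have hmom : Mom (a (0, 0)) (a (1, 0)) (a (0, 1)) (a (1, -1)) := by
    rcases hr0.eq_or_lt with rfl | hr0
    · rw [hr, norm_le_zero_iff.mp b1, norm_le_zero_iff.mp b2, norm_le_zero_iff.mp b3]
      simpa using (mom_char (z := 1) (w := 1) norm_one norm_one).smul le_rfl
    · have hrc : (r : ℂ) ≠ 0 := by exact_mod_cast hr0.ne'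
      have nd : ∀ x : ℂ, ‖x‖ ≤ r → ‖x / r‖ ≤ 1 := fun x hx => by
        rwa [norm_div, Complex.norm_real, Real.norm_of_nonneg hr0.le, div_le_one hr0]
      have := (mom_one (γ := a (1, -1) / r) (nd _ b1) (nd _ b2) ?_).smul hr0.le
      · convert this using 1
        · simp [hr]
        all_goals field_simp
      · have e : (a (1, 0) / r * conj (a (0, 1) / r) * conj (a (1, -1) / r)).re =
            (a (1, 0) * conj (a (0, 1)) * conj (a (1, -1))).re / r ^ 3 := by
          rw [← Complex.div_ofReal_re]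
          congr 1
          simp only [map_div₀, Complex.conj_ofReal]
          push_cast
          field_simp
        rw [e]
        simp only [map_div₀, Complex.normSq_ofReal]
        refine (div_nonneg hdet (pow_pos hr0 3).le).trans (le_of_eq ?_)
        field_simp
  obtain ⟨b, hb, e0, e1, e2, e3⟩ := hmom
  have d1 : b (-1, 0) = conj (b (1, 0)) := by simpa using toeplitz_neg (hb tri) m1 m0
  have d2 : b (0, -1) = conj (b (0, 1)) := by simpa using toeplitz_neg (hb tri) m2 m0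
  have d3 : b (-1, 1) = conj (b (1, -1)) := by simpa using toeplitz_neg (hb tri) m1 m2
  have e0' : b 0 = a 0 := e0
  refine ⟨b, ?_, (isPos_complex _).mpr (hb K)⟩
  intro i hi j hj
  simp only [tri, Finset.mem_insert, Finset.mem_singleton] at hi hj
  rcases hi with rfl | rfl | rfl <;> rcases hj with rfl | rfl | rfl <;>
    simp [e0', e1, e2, e3, d1, d2, d3, c1, c2, c3]

end Pool.Agent.P.MP_76760e_an
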